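import Pool.Agent.V11304.MW.Main

/-!
# MP_811154_nt : Wilf's inequality for modular numerical semigroups
-/

namespace Pool.Agent.Results.MP_811154_nt.Full

/-- The modular numerical semigroup `S(a,b,1) = {x ∈ ℕ : a x mod b ≤ x}`. -/
def modSG (a b : ℕ) : Set ℕ := {x | a * x % b ≤ x}

/-- `S` is a numerical semigroup. -/
def IsNumSG (S : Set ℕ) : Prop :=
  0 ∈ S ∧ (∀ x ∈ S, ∀ y ∈ S, x + y ∈ S) ∧ Sᶜ.Finite

/-- `G` is a minimal generating set of `S`: it generates `S` as a monoid and no proper subset
of `G` does. -/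
def IsMinGen (G S : Set ℕ) : Prop :=
  (AddSubmonoid.closure G : Set ℕ) = S ∧
    ∀ H : Set ℕ, H ⊂ G → (AddSubmonoid.closure H : Set ℕ) ≠ S

/-- The genus: the number of gaps. -/
noncomputable def genus (S : Set ℕ) : ℕ := Sᶜ.ncard

/-- `F` is the Frobenius number of `S`: the largest integer not in `S`. -/
def IsFrobenius (S : Set ℕ) (F : ℤ) : Prop :=
  IsGreatest {z : ℤ | ∀ x ∈ S, (x : ℤ) ≠ z} F

open Pool.Agent.V11304.MW Finset in
/-- For all positive integers `a, b` the set `S = S(a,b,1)` is a numerical semigroup, it has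
exactly one minimal generating set `G`, this `G` is finite, `S` has a Frobenius number `F`, and
`e(S) g(S) ≤ (e(S) - 1) (F(S) + 1)`, where `e(S) = |G|`. -/
theorem result (a b : ℕ) (_ha : 0 < a) (hb : 0 < b) :
    IsNumSG (modSG a b) ∧
      ∃ (G : Set ℕ) (F : ℤ), G.Finite ∧ IsMinGen G (modSG a b) ∧
        (∀ G' : Set ℕ, IsMinGen G' (modSG a b) → G' = G) ∧
        IsFrobenius (modSG a b) F ∧
        (G.ncard : ℤ) * (genus (modSG a b) : ℤ) ≤ ((G.ncard : ℤ) - 1) * (F + 1) := by
  classical
  have hSet : modSG a b = (modS a b : Set ℕ) := rfl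
  rw [hSet]
  -- conductor
  have hexc : ∃ c, ∀ x, c ≤ x → x ∈ modS a b := ⟨b, fun x hx => ge_mem a b x hb hx⟩
  obtain ⟨c, hc, hcmin⟩ : ∃ c, (∀ x, c ≤ x → x ∈ modS a b) ∧
      ∀ c', (∀ x, c' ≤ x → x ∈ modS a b) → c ≤ c' :=
    ⟨Nat.find hexc, Nat.find_spec hexc, fun c' h => Nat.find_min' hexc h⟩
  have hc1 : c = 0 ∨ c - 1 ∉ modS a b := by
    rcases Nat.eq_zero_or_pos c with h | h
    · left; exact h
    · right
      intro hmem
      have := hcmin (c - 1) (by
        intro x hx
        rcases Nat.eq_or_lt_of_le hx with h1 | h1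
        · rw [← h1]; exact hmem
        · exact hc x (by omega))
      omega
  have hcompl : ((modS a b : Set ℕ)ᶜ) = (((range c).filter (· ∉ modS a b) : Finset ℕ) : Set ℕ) := by
    ext x
    simp only [Set.mem_compl_iff, SetLike.mem_coe, coe_filter, mem_range, Set.mem_ofPred_eq]
    constructor
    · intro h
      refine ⟨?_, h⟩
      by_contra h1
      exact h (hc x (by omega))
    · intro h; exact h.2
  have hgenus : genus (modS a b : Set ℕ) = ((range c).filter (· ∉ modS a b)).card := by
    unfold genus
    rw [hcompl, Set.ncard_coe_finset]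
  have hnum : IsNumSG (modS a b : Set ℕ) := by
    refine ⟨zero_mem (modS a b), fun x hx y hy => (modS a b).add_mem hx hy, ?_⟩
    rw [hcompl]
    exact Finset.finite_toSet _
  have hF : IsFrobenius (modS a b : Set ℕ) ((c : ℤ) - 1) := by
    constructor
    · intro x hx hxe
      rcases hc1 with h | h
      · subst h; omega
      · apply h
        have : x = c - 1 := by omega
        rw [← this]; exact hx
    · intro z hz
      by_contra h
      push Not at h
      have h1 : (c : ℤ) ≤ z := by omega
      obtain ⟨n, rfl⟩ := Int.eq_ofNat_of_zero_le (show 0 ≤ z by omega)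
      exact hz n (hc n (by exact_mod_cast h1)) rfl
  have hgen : IsMinGen (Irr (modS a b)) (modS a b : Set ℕ) := by
    refine ⟨by rw [closure_irr], ?_⟩
    intro H hH hcl
    have := irr_subset (modS a b) H (SetLike.coe_injective hcl)
    exact hH.2 this
  have huniq : ∀ G' : Set ℕ, IsMinGen G' (modS a b : Set ℕ) → G' = Irr (modS a b) := by
    intro G' hG'
    have h1 := irr_subset (modS a b) G' (SetLike.coe_injective hG'.1)
    by_contra hne
    exact hG'.2 (Irr (modS a b)) (lt_of_le_of_ne h1 (Ne.symm hne)) (by rw [closure_irr])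
  refine ⟨hnum, Irr (modS a b), (c : ℤ) - 1, ?_, hgen, huniq, hF, ?_⟩
  · -- finiteness
    by_cases h1 : 1 ∈ modS a b
    · refine (Set.finite_singleton 1).subset ?_
      intro x hx
      have := hx.2.2 1 h1 (x - 1) (by
        have : (x - 1) • 1 ∈ modS a b := nsmul_mem h1 _
        simpa using this) (by have := hx.2.1; omega)
      have := hx.2.1
      show x = 1
      omega
    · have hbm : b ∈ modS a b := ge_mem a b b hb le_rfl
      have hb2 : 2 ≤ b := by
        by_contra h
        have : b = 1 := by omega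
        rw [this] at hbm
        rw [this] at h1
        exact h1 hbm
      refine irr_finite (modS a b) b (c + b) hb2 hbm (by omega) (fun x hx => hc x (by omega))
  · rw [hgenus]
    by_cases h1 : 1 ∈ modS a b
    · have hall : ∀ x, x ∈ modS a b := by
        intro x
        have : x • 1 ∈ modS a b := nsmul_mem h1 _
        simpa using this
      have hc0 : c = 0 := by
        have := hcmin 0 (fun x _ => hall x)
        omega
      subst hc0
      simp
    · have hexm : ∃ m, 0 < m ∧ m ∈ modS a b := ⟨b, hb, ge_mem a b b hb le_rfl⟩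
      obtain ⟨m, ⟨hm0, hm⟩, hmin⟩ : ∃ m, (0 < m ∧ m ∈ modS a b) ∧
          ∀ x, 0 < x → x < m → x ∉ modS a b := by
        refine ⟨Nat.find hexm, Nat.find_spec hexm, ?_⟩
        intro x hx hlt hmem
        exact Nat.find_min hexm hlt ⟨hx, hmem⟩
      have hm2 : 2 ≤ m := by
        by_contra h
        have : m = 1 := by omega
        rw [this] at hm
        exact h1 hm
      have hc1' : c - 1 ∉ modS a b := by
        rcases hc1 with h | h
        · exact absurd (hc 1 (by omega)) h1
        · exact h
      have key := wilf a b m c hb hm2 hm hmin hc hc1'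
      have key' : ((Irr (modS a b)).ncard : ℤ) * (((range c).filter (· ∉ modS a b)).card : ℤ) + c ≤
          ((Irr (modS a b)).ncard : ℤ) * c := by exact_mod_cast key
      linarith [key']

end Pool.Agent.Results.MP_811154_nt.Full
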